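import Pool.Agent.V5helper33.PR.Fin
import Pool.Agent.V5helper42.MF.Model2

set_option autoImplicit false

/-!
# The primes are irregular at all scales up to `(log x) ^ B` at the same place `x`

Maier's theorem (1985) gives, for each fixed `B > 1`, places `x` such that the ONE interval
`(x, x + (log x) ^ B]` has `1 ± δ` times the expected number of primes. Here the same place `x` is
irregular at ALL scales at once, in the same direction: for every `B` there is `δ > 0` such that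

* for many integers `x` all the intervals `(x, x + u]`, `0 < u ≤ (log x) ^ B`, contain at most
  `(1 - δ) u / log x` primes;
* for many primes `p` all the intervals `[p, p + u)`, `0 < u ≤ (log p) ^ B`, contain at least
  `(1 + δ) u / log p` primes.

In terms of the gaps between consecutive primes: for many primes `p_i` all the initial averages of
the following gaps `p_{i+1} - p_i, p_{i+2} - p_{i+1}, …`, up to the first `(log p_i) ^ B` of them,
are at most `(1 - δ) log p_i`; and for infinitely many `p_i` all these averages are at least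
`(1 + δ) log p_i`.

Here many means at least `X exp (- (log X) ^ β)` of the integers of `(X, 3 X)`, for every `β > 0` and
all large `X`. In Cramér's random model there are almost surely at most `X exp (- c (log X) ^ (B - 1))`
of both kinds.

Proof. By Maier's matrix method with a small modulus (helper42, on the files of helper610 and team)
a weighted mean over `n` of the number of primes in `(n, n + Y]` is `1 ± δ₀` times the expected
number, with `Y` a large multiple of `(log X) ^ B`. Fix a good `n`. If every `t ∈ [n, n + T)`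
were the left end of an interval of length at most `U` with more than the prescribed number of
primes, these intervals would tile `(n, n + T + U]` up to `U`, which has too few primes for that;
for the lower bounds one tiles with intervals that begin at primes, skipping the prime-free
parts. helper33.
-/

namespace Pool.Agent.Results.MP_f9960f_nt.AllScalesAtOnce

open Filter MeasureTheory ProbabilityTheory

/-- the `i`-th prime, numbered from `p 0 = 2` -/
noncomputable def p (i : ℕ) : ℕ := Nat.nth Nat.Prime i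

/-- all the intervals `(x, x + u]`, `0 < u ≤ (log x) ^ B`, contain at most `(1 - δ) u / log x`
elements of `A` -/
def Sparse (A : Set ℕ) (B δ : ℝ) (x : ℕ) : Prop :=
  ∀ u : ℝ, 0 < u → u ≤ Real.log x ^ B →
    ({m : ℕ | m ∈ A ∧ x < m ∧ (m : ℝ) ≤ x + u}.ncard : ℝ) ≤ (1 - δ) * (u / Real.log x)

/-- `x` is in `A` and all the intervals `[x, x + u)`, `0 < u ≤ (log x) ^ B`, contain at least
`(1 + δ) u / log x` elements of `A` -/
def Dense (A : Set ℕ) (B δ : ℝ) (x : ℕ) : Prop :=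
  x ∈ A ∧ ∀ u : ℝ, 0 < u → u ≤ Real.log x ^ B →
    (1 + δ) * (u / Real.log x) ≤ ({m : ℕ | m ∈ A ∧ x ≤ m ∧ (m : ℝ) < x + u}.ncard : ℝ)

/-- the number of the integers `x` in `(X, 3 X)` with the property `Q` -/
noncomputable def number (X : ℝ) (Q : ℕ → Prop) : ℝ :=
  ({x : ℕ | X < x ∧ (x : ℝ) < 3 * X ∧ Q x}.ncard : ℝ)

open Pool.Agent.V5helper33.PR

lemma finite_block (X : ℝ) (q : ℕ → Prop) : {n : ℕ | X < n ∧ (n : ℝ) < 3 * X ∧ q n}.Finite := by
  apply (Finset.finite_toSet (Finset.range (⌊3 * X⌋₊ + 1))).subset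
  intro n hn
  simp only [Set.mem_ofPred_eq] at hn
  rw [Finset.mem_coe, Finset.mem_range]
  have := Nat.le_floor hn.2.1.le
  omega

lemma card_le_number {X : ℝ} {Q : ℕ → Prop} {G : Finset ℕ}
    (h : ∀ x ∈ G, X < x ∧ (x : ℝ) < 3 * X ∧ Q x) : (G.card : ℝ) ≤ number X Q := by
  unfold number
  rw [← Set.ncard_coe_finset]
  have := Set.ncard_le_ncard (s := (G : Set ℕ)) (t := {x : ℕ | X < x ∧ (x : ℝ) < 3 * X ∧ Q x})
    (fun x hx => h x hx) (finite_block X Q)
  exact_mod_cast this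

lemma sparse_mono {A : Set ℕ} {B δ δ' : ℝ} {x : ℕ} (h : δ ≤ δ') (hs : Sparse A B δ' x) :
    Sparse A B δ x := by
  intro u hu hu2
  refine (hs u hu hu2).trans ?_
  apply mul_le_mul_of_nonneg_right (by linarith)
  have : 0 ≤ Real.log (x : ℝ) := Real.log_natCast_nonneg x
  positivity

lemma dense_mono {A : Set ℕ} {B δ δ' : ℝ} {x : ℕ} (h : δ ≤ δ') (hs : Dense A B δ' x) :
    Dense A B δ x := by
  refine ⟨hs.1, fun u hu hu2 => ?_⟩
  refine le_trans ?_ (hs.2 u hu hu2)
  apply mul_le_mul_of_nonneg_right (by linarith)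
  have : 0 ≤ Real.log (x : ℝ) := Real.log_natCast_nonneg x
  positivity

lemma number_mono {X : ℝ} {Q Q' : ℕ → Prop} (h : ∀ x : ℕ, X < x → (x : ℝ) < 3 * X → Q x → Q' x) :
    number X Q ≤ number X Q' := by
  unfold number
  have := Set.ncard_le_ncard (s := {x : ℕ | X < x ∧ (x : ℝ) < 3 * X ∧ Q x})
    (t := {x : ℕ | X < x ∧ (x : ℝ) < 3 * X ∧ Q' x})
    (fun x hx => ⟨hx.1, hx.2.1, h x hx.1 hx.2.1 hx.2.2⟩) (finite_block X Q')
  exact_mod_cast this

lemma logs_of {X : ℝ} {x : ℕ} (hX : 3 < X) (h1 : X < x) (h2 : (x : ℝ) < 3 * X) :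
    Real.log X ≤ Real.log x ∧ Real.log x ≤ Real.log (3 * X) :=
  ⟨Real.log_le_log (by linarith) h1.le, Real.log_le_log (by linarith) h2.le⟩

theorem part_sparse (B β : ℝ) (hB : 0 < B) (hβ : 0 < β) : ∃ δ : ℝ, 0 < δ ∧
    ∀ᶠ X : ℝ in atTop, X * Real.exp (-(Real.log X ^ β)) ≤
      number X (Sparse {q | q.Prime} B δ) := by
  obtain ⟨δ, hδ, hδ1, h⟩ := low B β hB hβ
  refine ⟨δ, hδ, ?_⟩
  filter_upwards [h, logs 1 one_pos] with X h1 h2
  obtain ⟨G, hG1, hG2⟩ := h1
  obtain ⟨g1, g2, g3, g4⟩ := h2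
  refine hG1.trans (card_le_number fun x hx => ?_)
  obtain ⟨k1, k2, k3⟩ := hG2 x hx
  obtain ⟨l1, l2⟩ := logs_of g1 k1 k2
  refine ⟨k1, k2, ?_⟩
  have hlog0 : 0 < Real.log (x : ℝ) := by linarith
  have := few_real (A := {q : ℕ | q.Prime}) (x := x) (M := Real.log (3 * X))
    (V := Real.log x ^ B) (c := 1 - δ) (by linarith) hlog0 l2 (by linarith)
    (fun u hu1 hu2 => k3 u hu1 (by
      have := Real.rpow_le_rpow hlog0.le l2 hB.le
      linarith))
  exact this

theorem part_dense (B β : ℝ) (hB : 0 < B) (hβ : 0 < β) : ∃ δ : ℝ, 0 < δ ∧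
    ∀ᶠ X : ℝ in atTop, X * Real.exp (-(Real.log X ^ β)) ≤
      number X (Dense {q | q.Prime} B δ) := by
  obtain ⟨δ, hδ, hδ1, h⟩ := high B β hB hβ
  refine ⟨δ, hδ, ?_⟩
  filter_upwards [h, logs 1 one_pos] with X h1 h2
  obtain ⟨G, hG1, hG2⟩ := h1
  obtain ⟨g1, g2, g3, g4⟩ := h2
  refine hG1.trans (card_le_number fun x hx => ?_)
  obtain ⟨k1, k2, k0, k3⟩ := hG2 x hx
  obtain ⟨l1, l2⟩ := logs_of g1 k1 k2
  refine ⟨k1, k2, k0, ?_⟩
  have hlog0 : 0 < Real.log (x : ℝ) := by linarith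
  have := many_real (A := {q : ℕ | q.Prime}) (x := x) (L := Real.log X)
    (V := Real.log x ^ B) (c := 1 + δ) k0.one_lt.le (by linarith) l1 (by linarith)
    (fun u hu1 hu2 => k3 u hu1 (by
      have := Real.rpow_le_rpow hlog0.le l2 hB.le
      linarith))
  exact this

theorem part_runs (B β : ℝ) (hB : 0 < B) (hβ : 0 < β) : ∃ δ : ℝ, 0 < δ ∧
    ∀ᶠ X : ℝ in atTop, X * Real.exp (-(Real.log X ^ β)) ≤
      ({i : ℕ | X < p i ∧ (p i : ℝ) < 3 * X ∧ ∀ j : ℕ, 1 ≤ j → (j : ℝ) ≤ Real.log (p i) ^ B →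
        (p (i + j) : ℝ) - p i ≤ (1 - δ) * (j * Real.log (p i))}.ncard : ℝ) := by
  classical
  obtain ⟨δ, hδ, hδ1, h⟩ := high (B + 2) β (by linarith) hβ
  refine ⟨δ / 2, by positivity, ?_⟩
  filter_upwards [h, logs 1 one_pos] with X h1 h2
  obtain ⟨G, hG1, hG2⟩ := h1
  obtain ⟨g1, g2, g3, g4⟩ := h2
  refine hG1.trans ?_
  have hfin : {i : ℕ | X < p i ∧ (p i : ℝ) < 3 * X ∧ ∀ j : ℕ, 1 ≤ j →
      (j : ℝ) ≤ Real.log (p i) ^ B →
        (p (i + j) : ℝ) - p i ≤ (1 - δ / 2) * (j * Real.log (p i))}.Finite := by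
    apply (Finset.finite_toSet (Finset.range (⌊3 * X⌋₊ + 1))).subset
    intro i hi
    rw [Finset.mem_coe, Finset.mem_range]
    have h5 : i ≤ p i := (Nat.nth_strictMono Nat.infinite_setOfPred_prime).id_le i
    have h6 := Nat.le_floor hi.2.1.le
    omega
  have hinj : Set.InjOn (Nat.count Nat.Prime) (G : Set ℕ) := by
    intro a ha b hb hab
    exact Nat.count_injective (hG2 a ha).2.2.1 (hG2 b hb).2.2.1 hab
  rw [← Finset.card_image_of_injOn hinj, ← Set.ncard_coe_finset]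
  have := Set.ncard_le_ncard (s := ((G.image (Nat.count Nat.Prime) : Finset ℕ) : Set ℕ)) (t := {i : ℕ |
      X < p i ∧ (p i : ℝ) < 3 * X ∧ ∀ j : ℕ, 1 ≤ j → (j : ℝ) ≤ Real.log (p i) ^ B →
        (p (i + j) : ℝ) - p i ≤ (1 - δ / 2) * (j * Real.log (p i))}) (by
    intro i hi
    rw [Finset.mem_coe, Finset.mem_image] at hi
    obtain ⟨x, hx, rfl⟩ := hi
    obtain ⟨k1, k2, k0, k3⟩ := hG2 x hx
    obtain ⟨l1, l2⟩ := logs_of g1 k1 k2
    have e : Nat.nth Nat.Prime (Nat.count Nat.Prime x) = x := Nat.nth_count k0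
    rw [← e] at k3 l1 l2
    have h7 := run_dense (i := Nat.count Nat.Prime x) (B := B) g2 g3 hδ hδ1 l1 l2 hB.le k3
    refine ⟨?_, ?_, ?_⟩
    · show X < ((Nat.nth Nat.Prime (Nat.count Nat.Prime x) : ℕ) : ℝ)
      rw [e]
      exact k1
    · show ((Nat.nth Nat.Prime (Nat.count Nat.Prime x) : ℕ) : ℝ) < 3 * X
      rw [e]
      exact k2
    · exact h7) hfin
  exact_mod_cast this

theorem part_runs' (B : ℝ) (hB : 0 < B) : ∃ δ : ℝ, 0 < δ ∧
    ∃ᶠ i : ℕ in atTop, ∀ j : ℕ, 1 ≤ j → (j : ℝ) ≤ Real.log (p i) ^ B →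
      (1 + δ) * (j * Real.log (p i)) ≤ (p (i + j) : ℝ) - p i := by
  classical
  obtain ⟨δ, hδ, hδ1, h⟩ := low (B + 2) 1 (by linarith) one_pos
  refine ⟨δ, hδ, ?_⟩
  rw [frequently_atTop]
  intro N
  obtain ⟨X, ⟨h1, h2⟩, h3⟩ := ((h.and (logs 1 one_pos)).and
    (eventually_ge_atTop ((p N : ℕ) : ℝ))).exists
  obtain ⟨G, hG1, hG2⟩ := h1
  obtain ⟨g1, g2, g3, g4⟩ := h2
  have hG0 : G.Nonempty := by
    rw [← Finset.card_pos]
    have h5 : (0 : ℝ) < X * Real.exp (-Real.log X ^ (1 : ℝ)) := by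
      have : 0 < X := by linarith
      positivity
    exact_mod_cast lt_of_lt_of_le h5 hG1
  obtain ⟨x, hx⟩ := hG0
  obtain ⟨k1, k2, k3⟩ := hG2 x hx
  obtain ⟨l1, l2⟩ := logs_of g1 k1 k2
  -- the last prime up to `x`
  obtain ⟨c, hc⟩ : ∃ c, c = Nat.count Nat.Prime (x + 1) := ⟨_, rfl⟩
  have hNx : p N < x := by exact_mod_cast lt_of_le_of_lt h3 k1
  have hcN : N + 1 ≤ c := by
    rw [hc]
    have h6 : Nat.count Nat.Prime (p N + 1) = N + 1 := by
      rw [Nat.count_succ]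
      unfold p
      rw [Nat.count_nth_of_infinite Nat.infinite_setOfPred_prime,
        if_pos (Nat.nth_mem_of_infinite Nat.infinite_setOfPred_prime N)]
    rw [← h6]
    exact Nat.count_monotone _ (by omega)
  obtain ⟨i, hi⟩ : ∃ i, c = i + 1 := ⟨c - 1, by omega⟩
  have hix : Nat.nth Nat.Prime i ≤ x := by
    have h7 : Nat.nth Nat.Prime i < x + 1 := by
      apply Nat.nth_lt_of_lt_count
      rw [← hc, hi]
      exact Nat.lt_succ_self i
    omega
  have hix2 : x + 1 ≤ Nat.nth Nat.Prime (i + 1) := by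
    apply (Nat.count_le_iff_le_nth Nat.infinite_setOfPred_prime).1
    rw [← hc, hi]
  have hno : cn PP (Nat.nth Nat.Prime i) x = 0 := by
    have h8 := cn_mono PP (le_refl (Nat.nth Nat.Prime i)) (show x ≤ Nat.nth Nat.Prime (i + 1) - 1 by omega)
    have h9 : cn PP (Nat.nth Nat.Prime i) (Nat.nth Nat.Prime (i + 1) - 1) = 0 := by
      by_contra hne
      obtain ⟨m, m1, m2, m3⟩ := (cn_pos_iff PP _ _).1 (Nat.pos_of_ne_zero hne)
      have m1' : m.Prime := m1
      have a1 : i < Nat.count Nat.Prime m := by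
        rw [← Nat.count_nth_of_infinite Nat.infinite_setOfPred_prime i]
        exact Nat.count_strict_mono (Nat.nth_mem_of_infinite Nat.infinite_setOfPred_prime i) m2
      have a2 : Nat.count Nat.Prime m < i + 1 := by
        have m4 : m < Nat.nth Nat.Prime (i + 1) := by omega
        rw [← Nat.count_nth_of_infinite Nat.infinite_setOfPred_prime (i + 1)]
        exact Nat.count_strict_mono m1' m4
      omega
    omega
  refine ⟨i, by omega, ?_⟩
  have hP2 : 2 ≤ Nat.nth Nat.Prime i :=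
    (Nat.nth_mem_of_infinite Nat.infinite_setOfPred_prime i).two_le
  have hlP : Real.log (Nat.nth Nat.Prime i : ℕ) ≤ Real.log (3 * X) := by
    refine le_trans (Real.log_le_log (by positivity) ?_) l2
    exact_mod_cast hix
  exact run_sparse (i := i) (B := B) (by linarith) hδ hδ1 (Real.log_natCast_nonneg _) hlP hB.le
    (fun u hu1 hu2 => by
      refine le_trans ?_ (k3 u hu1 hu2)
      apply mul_le_mul_of_nonneg_right _ (by linarith)
      have : cn PP (Nat.nth Nat.Prime i) (Nat.nth Nat.Prime i + u) ≤ cn PP x (x + u) := by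
        by_cases hux : Nat.nth Nat.Prime i + u ≤ x
        · have := cn_mono PP (le_refl (Nat.nth Nat.Prime i)) hux
          omega
        · rw [cn_add PP hix (by omega : x ≤ Nat.nth Nat.Prime i + u), hno, zero_add]
          exact cn_mono PP le_rfl (by omega)
      exact_mod_cast this)

lemma NN_eq {Ω : Type} [MeasurableSpace Ω] (E : ℕ → Set Ω) (ω : Ω) (s t : ℕ) :
    Pool.Agent.V5helper42.MF.NN E (Finset.Ioc s t) ω = (cn {m : ℕ | ω ∈ E m} s t : ℝ) := by
  classical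
  unfold cn Pool.Agent.V5helper42.MF.NN
  rw [Finset.card_filter]
  push_cast
  apply Finset.sum_congr rfl
  intro m _
  by_cases h : ω ∈ E m
  · simp [h]
  · simp [h]

open Pool.Agent.V5helper42.MF in
theorem part_model (B δ : ℝ) (hB : 1 < B) (hδ : 0 < δ) (hδ1 : δ ≤ 1) : ∃ c : ℝ, 0 < c ∧
    ∀ (Ω : Type) [MeasurableSpace Ω] (μ : Measure Ω) [IsProbabilityMeasure μ] (E : ℕ → Set Ω),
      (∀ m, MeasurableSet (E m)) → iIndepSet E μ →
      (∀ m : ℕ, 3 ≤ m → μ (E m) = ENNReal.ofReal (1 / Real.log m)) →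
      ∀ᵐ ω ∂μ, ∀ᶠ X : ℝ in atTop,
        number X (Sparse {m : ℕ | ω ∈ E m} B δ) + number X (Dense {m : ℕ | ω ∈ E m} B δ) ≤
          X * Real.exp (-(c * Real.log X ^ (B - 1))) := by
  refine ⟨(δ / 2) ^ 2 / 128 * (1 / 2) ^ (B - 1) / 2, by positivity, ?_⟩
  intro Ω _ μ _ E hE hind hprob
  have hC : Cram μ E := ⟨hE, hind, hprob⟩
  have hev : ∀ᶠ X : ℝ in atTop, Real.log 2 ≤
      (δ / 2) ^ 2 / 128 * (1 / 2) ^ (B - 1) / 2 * Real.log X ^ (B - 1) := by
    have h3 : Tendsto (fun X : ℝ => (δ / 2) ^ 2 / 128 * (1 / 2) ^ (B - 1) / 2 *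
        Real.log X ^ (B - 1)) atTop atTop := by
      apply Tendsto.const_mul_atTop (by positivity)
      exact (tendsto_rpow_atTop (by linarith)).comp Real.tendsto_log_atTop
    exact h3.eventually_ge_atTop _
  have hev2 : ∀ᶠ X : ℝ in atTop, 2 / δ ≤ Real.log X ^ (B - 1) :=
    ((tendsto_rpow_atTop (by linarith)).comp Real.tendsto_log_atTop).eventually_ge_atTop _
  filter_upwards [ae_count B (δ / 2) hB (by positivity) (by linarith) μ E hC] with ω hω
  filter_upwards [hω, hev, hev2, logs 1 one_pos] with X hX hX2 hX3 hX4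
  obtain ⟨g1, g2, g3, g4⟩ := hX4
  have hwin : ∀ n : ℕ, NN E (win B n) ω =
      (cn {m : ℕ | ω ∈ E m} n (n + ⌊Real.log n ^ B⌋₊) : ℝ) := fun n => NN_eq E ω _ _
  have hs : number X (Sparse {m : ℕ | ω ∈ E m} B δ) ≤ number X (fun n => ω ∈ bad E B (δ / 2) n) := by
    apply number_mono
    intro n hn1 hn2 hn3
    obtain ⟨l1, l2⟩ := logs_of g1 hn1 hn2
    have hlog0 : 0 < Real.log (n : ℝ) := by linarith
    have hV : 0 < Real.log (n : ℝ) ^ B := Real.rpow_pos_of_pos hlog0 _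
    have h1 := hn3 (Real.log n ^ B) hV le_rfl
    rw [ncard_Ioc _ _ hV.le, ← hwin] at h1
    have h2 : Real.log (n : ℝ) ^ B / Real.log n = Real.log n ^ (B - 1) := by
      rw [Real.rpow_sub_one hlog0.ne']
    rw [h2] at h1
    show δ / 2 * Real.log n ^ (B - 1) ≤ |_|
    have h3 : 0 ≤ Real.log (n : ℝ) ^ (B - 1) := Real.rpow_nonneg hlog0.le _
    refine le_trans ?_ (neg_le_abs _)
    nlinarith
  have hd : number X (Dense {m : ℕ | ω ∈ E m} B δ) ≤ number X (fun n => ω ∈ bad E B (δ / 2) n) := by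
    apply number_mono
    intro n hn1 hn2 hn3
    obtain ⟨l1, l2⟩ := logs_of g1 hn1 hn2
    have hlog0 : 0 < Real.log (n : ℝ) := by linarith
    have hV : 0 < Real.log (n : ℝ) ^ B := Real.rpow_pos_of_pos hlog0 _
    have h1 := hn3.2 (Real.log n ^ B) hV le_rfl
    have hn0 : 1 ≤ n := by
      have : (0 : ℝ) < n := by linarith
      exact_mod_cast this
    rw [ncard_Ico _ hn0 hV] at h1
    have h2 : Real.log (n : ℝ) ^ B / Real.log n = Real.log n ^ (B - 1) := by
      rw [Real.rpow_sub_one hlog0.ne']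
    rw [h2] at h1
    have h4 : cn {m : ℕ | ω ∈ E m} (n - 1) (n - 1 + ⌈Real.log (n : ℝ) ^ B⌉₊) ≤
        1 + cn {m : ℕ | ω ∈ E m} n (n + ⌊Real.log n ^ B⌋₊) := by
      have h5 : ⌈Real.log (n : ℝ) ^ B⌉₊ ≤ ⌊Real.log n ^ B⌋₊ + 1 := Nat.ceil_le_floor_add_one _
      calc _ ≤ cn {m : ℕ | ω ∈ E m} (n - 1) (n + ⌊Real.log n ^ B⌋₊) :=
            cn_mono _ le_rfl (by omega)
        _ = cn {m : ℕ | ω ∈ E m} (n - 1) n +
            cn {m : ℕ | ω ∈ E m} n (n + ⌊Real.log n ^ B⌋₊) := cn_add _ (by omega) (by omega)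
        _ ≤ _ := by
            have := cn_le {m : ℕ | ω ∈ E m} (n - 1) n
            omega
    have h4' : (cn {m : ℕ | ω ∈ E m} (n - 1) (n - 1 + ⌈Real.log (n : ℝ) ^ B⌉₊) : ℝ) ≤
        1 + NN E (win B n) ω := by
      rw [hwin]
      exact_mod_cast h4
    have h6 : 2 / δ ≤ Real.log (n : ℝ) ^ (B - 1) :=
      hX3.trans (Real.rpow_le_rpow (by linarith) l1 (by linarith))
    rw [div_le_iff₀ hδ] at h6
    show δ / 2 * Real.log n ^ (B - 1) ≤ |_|
    refine le_trans ?_ (le_abs_self _)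
    linarith
  have hb : number X (fun n => ω ∈ bad E B (δ / 2) n) ≤
      X * Real.exp (-((δ / 2) ^ 2 / 128 * (1 / 2) ^ (B - 1) * Real.log X ^ (B - 1))) := hX
  set v := (δ / 2) ^ 2 / 128 * (1 / 2) ^ (B - 1) * Real.log X ^ (B - 1) with hv
  have hv2 : (δ / 2) ^ 2 / 128 * (1 / 2) ^ (B - 1) / 2 * Real.log X ^ (B - 1) = v / 2 := by
    rw [hv]
    ring
  rw [hv2] at hX2 ⊢
  have h4 : 2 * Real.exp (-v) ≤ Real.exp (-(v / 2)) := by
    have k1 : (2 : ℝ) ≤ Real.exp (v / 2) :=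
      (Real.exp_log (show (0 : ℝ) < 2 by norm_num)).symm.le.trans (Real.exp_le_exp.mpr hX2)
    have k2 : Real.exp (-(v / 2)) = Real.exp (v / 2) * Real.exp (-v) := by
      rw [← Real.exp_add]
      congr 1
      ring
    rw [k2]
    exact mul_le_mul_of_nonneg_right k1 (Real.exp_pos _).le
  have h5 : X * (2 * Real.exp (-v)) ≤ X * Real.exp (-(v / 2)) :=
    mul_le_mul_of_nonneg_left h4 (by linarith)
  linarith

/-- **Theorem.** (A) For all `B, β > 0` there is `δ > 0` such that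

1. for all large `X`, at least `X exp (- (log X) ^ β)` integers `x ∈ (X, 3 X)` are such that ALL
   the intervals `(x, x + u]`, `0 < u ≤ (log x) ^ B`, contain at most `(1 - δ) u / log x` primes;
2. for all large `X`, at least `X exp (- (log X) ^ β)` primes `q ∈ (X, 3 X)` are such that ALL the
   intervals `[q, q + u)`, `0 < u ≤ (log q) ^ B`, contain at least `(1 + δ) u / log q` primes;
3. for all large `X`, at least `X exp (- (log X) ^ β)` indices `i` with `p_i ∈ (X, 3 X)` are such that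
   `p_{i + j} - p_i ≤ (1 - δ) j log p_i` for ALL `1 ≤ j ≤ (log p_i) ^ B`;
4. for infinitely many `i`, `p_{i + j} - p_i ≥ (1 + δ) j log p_i` for ALL `1 ≤ j ≤ (log p_i) ^ B`.

(B) For all `B > 1` and `0 < δ ≤ 1` there is `c > 0` such that in Cramér's model (independent
events `m ∈ A` with probability `1 / log m`, `m ≥ 3`) almost surely, for all large `X`, the number
of the integers of `(X, 3 X)` with the property in 1 plus the number of those with the property in 2,
for the random set `A`, is at most `X exp (- c (log X) ^ (B - 1))`. -/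
theorem result :
    (∀ B β : ℝ, 0 < B → 0 < β → ∃ δ : ℝ, 0 < δ ∧
      (∀ᶠ X : ℝ in atTop, X * Real.exp (-(Real.log X ^ β)) ≤
        number X (Sparse {q | q.Prime} B δ)) ∧
      (∀ᶠ X : ℝ in atTop, X * Real.exp (-(Real.log X ^ β)) ≤
        number X (Dense {q | q.Prime} B δ)) ∧
      (∀ᶠ X : ℝ in atTop, X * Real.exp (-(Real.log X ^ β)) ≤
        ({i : ℕ | X < p i ∧ (p i : ℝ) < 3 * X ∧ ∀ j : ℕ, 1 ≤ j → (j : ℝ) ≤ Real.log (p i) ^ B →
          (p (i + j) : ℝ) - p i ≤ (1 - δ) * (j * Real.log (p i))}.ncard : ℝ)) ∧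
      (∃ᶠ i : ℕ in atTop, ∀ j : ℕ, 1 ≤ j → (j : ℝ) ≤ Real.log (p i) ^ B →
        (1 + δ) * (j * Real.log (p i)) ≤ (p (i + j) : ℝ) - p i)) ∧
    (∀ B δ : ℝ, 1 < B → 0 < δ → δ ≤ 1 → ∃ c : ℝ, 0 < c ∧
      ∀ (Ω : Type) [MeasurableSpace Ω] (μ : Measure Ω) [IsProbabilityMeasure μ] (E : ℕ → Set Ω),
        (∀ m, MeasurableSet (E m)) → iIndepSet E μ →
        (∀ m : ℕ, 3 ≤ m → μ (E m) = ENNReal.ofReal (1 / Real.log m)) →
        ∀ᵐ ω ∂μ, ∀ᶠ X : ℝ in atTop,
          number X (Sparse {m : ℕ | ω ∈ E m} B δ) + number X (Dense {m : ℕ | ω ∈ E m} B δ) ≤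
            X * Real.exp (-(c * Real.log X ^ (B - 1)))) := by
  refine ⟨fun B β hB hβ => ?_, part_model⟩
  obtain ⟨δ1, h1, H1⟩ := part_sparse B β hB hβ
  obtain ⟨δ2, h2, H2⟩ := part_dense B β hB hβ
  obtain ⟨δ3, h3, H3⟩ := part_runs B β hB hβ
  obtain ⟨δ4, h4, H4⟩ := part_runs' B hB
  obtain ⟨δ, hδ, g1, g2, g3, g4⟩ : ∃ δ : ℝ, 0 < δ ∧ δ ≤ δ1 ∧ δ ≤ δ2 ∧ δ ≤ δ3 ∧ δ ≤ δ4 :=
    ⟨min (min δ1 δ2) (min δ3 δ4), by positivity, (min_le_left _ _).trans (min_le_left _ _),
      (min_le_left _ _).trans (min_le_right _ _), (min_le_right _ _).trans (min_le_left _ _),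
      (min_le_right _ _).trans (min_le_right _ _)⟩
  refine ⟨δ, hδ, ?_, ?_, ?_, ?_⟩
  · filter_upwards [H1] with X hX
    exact hX.trans (number_mono fun x _ _ hx => sparse_mono g1 hx)
  · filter_upwards [H2] with X hX
    exact hX.trans (number_mono fun x _ _ hx => dense_mono g2 hx)
  · filter_upwards [H3] with X hX
    refine hX.trans ?_
    have hfin : {i : ℕ | X < p i ∧ (p i : ℝ) < 3 * X ∧ ∀ j : ℕ, 1 ≤ j →
        (j : ℝ) ≤ Real.log (p i) ^ B →
          (p (i + j) : ℝ) - p i ≤ (1 - δ) * (j * Real.log (p i))}.Finite := by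
      apply (Finset.finite_toSet (Finset.range (⌊3 * X⌋₊ + 1))).subset
      intro i hi
      rw [Finset.mem_coe, Finset.mem_range]
      have h5 : i ≤ p i := (Nat.nth_strictMono Nat.infinite_setOfPred_prime).id_le i
      have h6 := Nat.le_floor hi.2.1.le
      omega
    have := Set.ncard_le_ncard (s := {i : ℕ | X < p i ∧ (p i : ℝ) < 3 * X ∧ ∀ j : ℕ, 1 ≤ j →
        (j : ℝ) ≤ Real.log (p i) ^ B →
          (p (i + j) : ℝ) - p i ≤ (1 - δ3) * (j * Real.log (p i))}) (t := {i : ℕ | X < p i ∧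
        (p i : ℝ) < 3 * X ∧ ∀ j : ℕ, 1 ≤ j → (j : ℝ) ≤ Real.log (p i) ^ B →
          (p (i + j) : ℝ) - p i ≤ (1 - δ) * (j * Real.log (p i))}) (fun i hi =>
        ⟨hi.1, hi.2.1, fun j hj hj2 => (hi.2.2 j hj hj2).trans (by
          apply mul_le_mul_of_nonneg_right (by linarith)
          have : 0 ≤ Real.log ((p i : ℕ) : ℝ) := Real.log_natCast_nonneg _
          positivity)⟩) hfin
    exact_mod_cast this
  · refine H4.mono fun i hi j hj hj2 => le_trans ?_ (hi j hj hj2)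
    apply mul_le_mul_of_nonneg_right (by linarith)
    have : 0 ≤ Real.log ((p i : ℕ) : ℝ) := Real.log_natCast_nonneg _
    positivity

end Pool.Agent.Results.MP_f9960f_nt.AllScalesAtOnce
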