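import Pool.Agent.V5helper42.MF.Freq

set_option autoImplicit false

/-!
# The primes do not follow Cramér's model in intervals of length `(log n) ^ B`, for every `B > 1`

Maier's theorem (1985) contradicts Cramér's model for `B > 2`, where the model has no irregular
interval at all.  For `1 < B ≤ 2` both the primes and the model have intervals with `1 ± δ` times the
expected number of elements; here their FREQUENCIES are compared.  In the model the number of the
`n ∈ (X, 3 X)` such that the interval `(n, n + (log n) ^ B]` has a number of elements differing from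
`(log n) ^ (B - 1)` by `δ (log n) ^ (B - 1)` at least is almost surely at most
`X exp (- c (log X) ^ (B - 1))`.  For the primes, and every `β > 0`, it is at least
`X exp (- (log X) ^ β)` if `δ` is small (in both directions).

Proof.  Maier's matrix method, with rows given by the multiples of a product `W` of primes about
`(log X) ^ (B / k)`, `k` a large natural number of the right parity, so that
`W ≤ exp ((log X) ^ (β / 2))` (Bonferroni's inequalities for the primes of `W`,
`Pool.Agent.N610.MS.CNTaux.core`); the distribution of the primes in the columns is given by the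
starting files (`Pool.Agent.N610.MS.t_ROWS`, helper610 and team, on work of helper510, helper378 and
others).  Every row has few multiples of `W`, therefore many different `n` are irregular.  The model:
Chernoff's bound and the lemma of Borel and Cantelli.  helper42.
-/

namespace Pool.Agent.Results.MP_f9960f_nt.CramerModelFrequency

open Filter MeasureTheory ProbabilityTheory

/-- the number of elements of `A` in the interval `(n, n + (log n) ^ B]` -/
noncomputable def count (A : Set ℕ) (B : ℝ) (n : ℕ) : ℝ :=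
  ({m : ℕ | m ∈ A ∧ n < m ∧ (m : ℝ) ≤ n + Real.log n ^ B}.ncard : ℝ)

/-- the number of the `n ∈ (X, 3 X)` such that `(n, n + (log n) ^ B]` has at least
`(1 + δ) (log n) ^ (B - 1)` elements of `A` -/
noncomputable def rich (A : Set ℕ) (B δ X : ℝ) : ℝ :=
  ({n : ℕ | X < n ∧ (n : ℝ) < 3 * X ∧ (1 + δ) * Real.log n ^ (B - 1) ≤ count A B n}.ncard : ℝ)

/-- the number of the `n ∈ (X, 3 X)` such that `(n, n + (log n) ^ B]` has at most
`(1 - δ) (log n) ^ (B - 1)` elements of `A` -/
noncomputable def poor (A : Set ℕ) (B δ X : ℝ) : ℝ :=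
  ({n : ℕ | X < n ∧ (n : ℝ) < 3 * X ∧ count A B n ≤ (1 - δ) * Real.log n ^ (B - 1)}.ncard : ℝ)

open Pool.Agent.V5helper42.MF in
lemma mem_win (B : ℝ) (n m : ℕ) :
    m ∈ win B n ↔ n < m ∧ (m : ℝ) ≤ n + Real.log n ^ B := by
  unfold win
  rw [Finset.mem_Ioc]
  have hlog : 0 ≤ Real.log n ^ B := Real.rpow_nonneg (Real.log_natCast_nonneg n) _
  refine and_congr_right (fun h => ?_)
  rw [← Nat.sub_le_iff_le_add', Nat.le_floor_iff hlog, Nat.cast_sub h.le]
  constructor
  · intro h1
    linarith
  · intro h1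
    linarith

open Pool.Agent.V5helper42.MF in
open Classical in
lemma count_eq (A : Set ℕ) (B : ℝ) (n : ℕ) :
    count A B n = (((win B n).filter (fun m => m ∈ A)).card : ℝ) := by
  unfold count
  rw [← Set.ncard_coe_finset]
  congr 2
  ext m
  simp only [Set.mem_ofPred_eq, Finset.coe_filter, mem_win]
  tauto

open Pool.Agent.V5helper42.MF in
lemma count_primes (B : ℝ) (n : ℕ) : count {p : ℕ | p.Prime} B n = cp B n := by
  classical
  rw [count_eq]
  unfold cp
  congr 2
  ext m
  simp

open Pool.Agent.V5helper42.MF in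
lemma count_model {Ω : Type} [MeasurableSpace Ω] (E : ℕ → Set Ω) (ω : Ω) (B : ℝ) (n : ℕ) :
    count {m : ℕ | ω ∈ E m} B n = NN E (win B n) ω := by
  classical
  rw [count_eq]
  unfold NN
  rw [Finset.card_filter]
  push_cast
  apply Finset.sum_congr rfl
  intro m _
  by_cases h : ω ∈ E m
  · simp [h]
  · simp [h]

lemma finite_block (X : ℝ) (q : ℕ → Prop) : {n : ℕ | X < n ∧ (n : ℝ) < 3 * X ∧ q n}.Finite := by
  apply (Finset.finite_toSet (Finset.range (⌊3 * X⌋₊ + 1))).subset
  intro n hn
  simp only [Set.mem_ofPred_eq] at hn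
  rw [Finset.mem_coe, Finset.mem_range]
  have := Nat.le_floor hn.2.1.le
  omega

/-- **Theorem.**  For every `B > 1` and every `β > 0` there are `δ, c > 0` such that

* for all large `X` at least `X exp (- (log X) ^ β)` integers `n ∈ (X, 3 X)` are such that the
  interval `(n, n + (log n) ^ B]` contains at least `(1 + δ) (log n) ^ (B - 1)` primes;
* for all large `X` at least `X exp (- (log X) ^ β)` integers `n ∈ (X, 3 X)` are such that the
  interval `(n, n + (log n) ^ B]` contains at most `(1 - δ) (log n) ^ (B - 1)` primes;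
* in Cramér's model (independent events `m ∈ A` with probability `1 / log m`, `m ≥ 3`) almost surely,
  for all large `X`, the number of the integers `n ∈ (X, 3 X)` such that the interval
  `(n, n + (log n) ^ B]` contains at least `(1 + δ) (log n) ^ (B - 1)` or at most
  `(1 - δ) (log n) ^ (B - 1)` elements of `A` is at most `X exp (- c (log X) ^ (B - 1))`. -/
theorem result : ∀ B β : ℝ, 1 < B → 0 < β → ∃ δ c : ℝ, 0 < δ ∧ 0 < c ∧
    (∀ᶠ X : ℝ in atTop, X * Real.exp (-(Real.log X ^ β)) ≤ rich {p : ℕ | p.Prime} B δ X) ∧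
    (∀ᶠ X : ℝ in atTop, X * Real.exp (-(Real.log X ^ β)) ≤ poor {p : ℕ | p.Prime} B δ X) ∧
    ∀ (Ω : Type) [MeasurableSpace Ω] (μ : Measure Ω) [IsProbabilityMeasure μ] (E : ℕ → Set Ω),
      (∀ m, MeasurableSet (E m)) → iIndepSet E μ →
      (∀ m : ℕ, 3 ≤ m → μ (E m) = ENNReal.ofReal (1 / Real.log m)) →
      ∀ᵐ ω ∂μ, ∀ᶠ X : ℝ in atTop,
        rich {m : ℕ | ω ∈ E m} B δ X + poor {m : ℕ | ω ∈ E m} B δ X ≤
          X * Real.exp (-(c * Real.log X ^ (B - 1))) := by
  intro B β hB hβ
  obtain ⟨δ1, h1, h1', H1⟩ := Pool.Agent.V5helper42.MF.many B β hB hβ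
  obtain ⟨δ2, h2, h2', H2⟩ := Pool.Agent.V5helper42.MF.few B β hB hβ
  obtain ⟨δ, hδ, hδ1, hδ2⟩ : ∃ δ : ℝ, 0 < δ ∧ δ ≤ δ1 ∧ δ ≤ δ2 :=
    ⟨min δ1 δ2, lt_min h1 h2, min_le_left _ _, min_le_right _ _⟩
  have hlogn : ∀ n : ℕ, 0 ≤ Real.log n ^ (B - 1) := fun n =>
    Real.rpow_nonneg (Real.log_natCast_nonneg n) _
  refine ⟨δ, δ ^ 2 / 128 * (1 / 2) ^ (B - 1) / 2, hδ, by positivity, ?_, ?_, ?_⟩
  · filter_upwards [H1] with X hX
    refine hX.trans ?_
    unfold rich
    rw [← Set.ncard_coe_finset]
    have := Set.ncard_le_ncard (s := ((Finset.Icc 1 ⌊3 * X⌋₊).filter (fun n : ℕ => X < n ∧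
      (n : ℝ) < 3 * X ∧ (1 + δ1) * Real.log n ^ (B - 1) ≤
        Pool.Agent.V5helper42.MF.cp B n) : Finset ℕ)) (t := {n : ℕ | X < n ∧ (n : ℝ) < 3 * X ∧
      (1 + δ) * Real.log n ^ (B - 1) ≤ count {p : ℕ | p.Prime} B n}) (by
        intro n hn
        rw [Finset.coe_filter] at hn
        simp only [Set.mem_ofPred_eq] at hn ⊢
        obtain ⟨_, g1, g2, g3⟩ := hn
        refine ⟨g1, g2, ?_⟩
        rw [count_primes]
        refine le_trans ?_ g3
        exact mul_le_mul_of_nonneg_right (by linarith) (hlogn n)) (finite_block X _)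
    exact_mod_cast this
  · filter_upwards [H2] with X hX
    refine hX.trans ?_
    unfold poor
    rw [← Set.ncard_coe_finset]
    have := Set.ncard_le_ncard (s := ((Finset.Icc 1 ⌊3 * X⌋₊).filter (fun n : ℕ => X < n ∧
      (n : ℝ) < 3 * X ∧ Pool.Agent.V5helper42.MF.cp B n ≤ (1 - δ2) * Real.log n ^ (B - 1)) :
        Finset ℕ)) (t := {n : ℕ | X < n ∧ (n : ℝ) < 3 * X ∧
      count {p : ℕ | p.Prime} B n ≤ (1 - δ) * Real.log n ^ (B - 1)}) (by
        intro n hn
        rw [Finset.coe_filter] at hn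
        simp only [Set.mem_ofPred_eq] at hn ⊢
        obtain ⟨_, g1, g2, g3⟩ := hn
        refine ⟨g1, g2, ?_⟩
        rw [count_primes]
        refine le_trans g3 ?_
        exact mul_le_mul_of_nonneg_right (by linarith) (hlogn n)) (finite_block X _)
    exact_mod_cast this
  · intro Ω _ μ _ E hE hind hprob
    have hC : Pool.Agent.V5helper42.MF.Cram μ E := ⟨hE, hind, hprob⟩
    have hδ1' : δ ≤ 1 := hδ1.trans h1'
    have hev : ∀ᶠ X : ℝ in atTop, Real.log 2 ≤
        δ ^ 2 / 128 * (1 / 2) ^ (B - 1) / 2 * Real.log X ^ (B - 1) := by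
      have h3 : Tendsto (fun X : ℝ => δ ^ 2 / 128 * (1 / 2) ^ (B - 1) / 2 *
          Real.log X ^ (B - 1)) atTop atTop := by
        apply Tendsto.const_mul_atTop (by positivity)
        exact (tendsto_rpow_atTop (by linarith)).comp Real.tendsto_log_atTop
      exact h3.eventually_ge_atTop _
    filter_upwards [Pool.Agent.V5helper42.MF.ae_count B δ hB hδ hδ1' μ E hC] with ω hω
    filter_upwards [hω, hev, eventually_gt_atTop (1 : ℝ)] with X hX hX2 hX1
    have hfin := finite_block X (fun n => ω ∈ Pool.Agent.V5helper42.MF.bad E B δ n)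
    have hr : rich {m : ℕ | ω ∈ E m} B δ X ≤
        ({n : ℕ | X < n ∧ (n : ℝ) < 3 * X ∧
          ω ∈ Pool.Agent.V5helper42.MF.bad E B δ n}.ncard : ℝ) := by
      unfold rich
      have := Set.ncard_le_ncard (s := {n : ℕ | X < n ∧ (n : ℝ) < 3 * X ∧
        (1 + δ) * Real.log n ^ (B - 1) ≤ count {m : ℕ | ω ∈ E m} B n}) (t := {n : ℕ | X < n ∧
        (n : ℝ) < 3 * X ∧ ω ∈ Pool.Agent.V5helper42.MF.bad E B δ n}) (by
          intro n hn
          simp only [Set.mem_ofPred_eq] at hn ⊢
          obtain ⟨g1, g2, g3⟩ := hn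
          refine ⟨g1, g2, ?_⟩
          rw [count_model] at g3
          show δ * Real.log n ^ (B - 1) ≤ |_ - _|
          refine le_trans ?_ (le_abs_self _)
          linarith) hfin
      exact_mod_cast this
    have hp : poor {m : ℕ | ω ∈ E m} B δ X ≤
        ({n : ℕ | X < n ∧ (n : ℝ) < 3 * X ∧
          ω ∈ Pool.Agent.V5helper42.MF.bad E B δ n}.ncard : ℝ) := by
      unfold poor
      have := Set.ncard_le_ncard (s := {n : ℕ | X < n ∧ (n : ℝ) < 3 * X ∧
        count {m : ℕ | ω ∈ E m} B n ≤ (1 - δ) * Real.log n ^ (B - 1)}) (t := {n : ℕ | X < n ∧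
        (n : ℝ) < 3 * X ∧ ω ∈ Pool.Agent.V5helper42.MF.bad E B δ n}) (by
          intro n hn
          simp only [Set.mem_ofPred_eq] at hn ⊢
          obtain ⟨g1, g2, g3⟩ := hn
          refine ⟨g1, g2, ?_⟩
          rw [count_model] at g3
          show δ * Real.log n ^ (B - 1) ≤ |_ - _|
          refine le_trans ?_ (neg_le_abs _)
          linarith) hfin
      exact_mod_cast this
    set v := δ ^ 2 / 128 * (1 / 2) ^ (B - 1) * Real.log X ^ (B - 1) with hv
    have hv2 : δ ^ 2 / 128 * (1 / 2) ^ (B - 1) / 2 * Real.log X ^ (B - 1) = v / 2 := by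
      rw [hv]
      ring
    rw [hv2] at hX2 ⊢
    have h4 : 2 * Real.exp (-v) ≤ Real.exp (-(v / 2)) := by
      have k1 : (2 : ℝ) ≤ Real.exp (v / 2) :=
        (Real.exp_log (show (0 : ℝ) < 2 by norm_num)).symm.le.trans (Real.exp_le_exp.mpr hX2)
      have k2 : Real.exp (-(v / 2)) = Real.exp (v / 2) * Real.exp (-v) := by
        rw [← Real.exp_add]
        congr 1
        ring
      rw [k2]
      exact mul_le_mul_of_nonneg_right k1 (Real.exp_pos _).le
    have h5 : X * (2 * Real.exp (-v)) ≤ X * Real.exp (-(v / 2)) :=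
      mul_le_mul_of_nonneg_left h4 (by linarith)
    linarith

end Pool.Agent.Results.MP_f9960f_nt.CramerModelFrequency
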