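import Pool.Agent.V5helper13.BG.Rec

set_option autoImplicit false

/-!
# Multiplicative characters of consecutive record gaps

All values of the homomorphisms of the group of positive rationals to a compact group can be prescribed, up to
neighbourhoods, simultaneously at all the differences of `k + 1` consecutive primes whose gaps have record length.

The isolated Maynard-Tao theorem for arbitrary admissible tuples of the record range (starting files,
`Pool.Agent.TH101.RG`) is applied to translates of multiplicatively scaled difference sets obtained from Hindman's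
theorem, the recurrence in compact groups and the compactness of the space of completely multiplicative functions.
-/

open Filter Topology

namespace Pool.Agent.Results.MP_f9960f_nt.MultiplicativeCharacters

/-- The record scale `f(x) = log x (log₂ x)² log₄ x / (log₃ x)²` (iterated natural logarithms). -/
noncomputable def f (x : ℝ) : ℝ :=
  Real.log x * (Real.log (Real.log x)) ^ 2 * Real.log (Real.log (Real.log (Real.log x))) /
    (Real.log (Real.log (Real.log x))) ^ 2

/-- The `i`-th prime, numbered from `p 0 = 2`. -/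
noncomputable def p (i : ℕ) : ℕ := Nat.nth Nat.Prime i

/-- `g (m n) = g m · g n` for all positive integers `m, n`. -/
def CompletelyMultiplicative {G : Type} [Mul G] (g : ℕ → G) : Prop :=
  ∀ m n : ℕ, m ≠ 0 → n ≠ 0 → g (m * n) = g m * g n

/-- Some interval of `H ≥ z` consecutive integers contains at least `δ H` elements of `E`. -/
def DenseSomewhere (E : Set ℤ) (δ z : ℝ) : Prop :=
  ∃ (u : ℤ) (H : ℕ), z ≤ H ∧ δ * H ≤ (Set.ncard {t : ℕ | t < H ∧ u + t ∈ E} : ℝ)

/-- The primes `p_n, …, p_{n+k}` lie in `(X, 4X]`, are all `≡ a (mod q)` and lie in a translate of `E`; the `k` gaps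
between them and the gap before them are at least `c f(X)`. -/
def RecordBlock (k q a : ℕ) (E : Set ℤ) (c X : ℝ) (n : ℕ) : Prop :=
  X < (p n : ℝ) ∧ (p (n + k) : ℝ) ≤ 4 * X ∧ (∀ i ≤ k, p (n + i) ≡ a [MOD q]) ∧
    (∃ s : ℤ, ∀ i ≤ k, (p (n + i) : ℤ) + s ∈ E) ∧
    1 ≤ n ∧ c * f X ≤ (p n : ℝ) - p (n - 1) ∧ ∀ i < k, c * f X ≤ (p (n + i + 1) : ℝ) - p (n + i)

/-- **Multiplicative characters of consecutive record gaps.**  Let `g` be a completely multiplicative function with
values in a compact Hausdorff commutative group, `W` a neighbourhood of `g(N)`, `N ≥ 1`, and let `F` be a finite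
commutative group, `q` squarefree, `δ > 0`. There are `c > 0` and `X₀` such that for all `X ≥ X₀`, all `a` prime to
`q`, ALL completely multiplicative `h` with values in `F` and all sets `E` of integers which have density at least
`δ` in some interval of length at least `f(X)` (`h` and `E` may depend on `X`): there are at least `X^(6/7)` blocks
`p_n, …, p_{n+k}` of consecutive primes of `(X, 4X]`, all `≡ a (mod q)` and in a translate of `E`, with all the gaps
and the gap before the block at least `c f(X)`, such that ALL differences `d = p_{n+j} - p_{n+i}`, `i < j ≤ k`,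
satisfy `g(d) ∈ W` and `h(d) = h(N)`. -/
theorem result {G : Type} [CommGroup G] [TopologicalSpace G] [IsTopologicalGroup G] [CompactSpace G]
    [T2Space G] (F : Type) [CommGroup F] [Finite F]
    (g : ℕ → G) (hg : CompletelyMultiplicative g) (N : ℕ) (hN : N ≠ 0) (W : Set G) (hW : W ∈ 𝓝 (g N))
    (k q : ℕ) (hq : Squarefree q) (δ : ℝ) (hδ : 0 < δ) :
    ∃ c : ℝ, 0 < c ∧ ∃ X₀ : ℝ, ∀ X : ℝ, X₀ ≤ X → ∀ a : ℕ, a.Coprime q →
    ∀ h : ℕ → F, CompletelyMultiplicative h → ∀ E : Set ℤ, DenseSomewhere E δ (f X) →
    X ^ (6 / 7 : ℝ) ≤ ({n : ℕ | RecordBlock k q a E c X n ∧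
      ∀ i j, i < j → j ≤ k → g (p (n + j) - p (n + i)) ∈ W ∧ h (p (n + j) - p (n + i)) = h N}.ncard : ℝ) := by
  obtain ⟨c, hc, hX⟩ := Pool.Agent.V5helper13.BG.rec_gaps F g hg N hN W hW k q hq δ hδ
  obtain ⟨X₀, hX₀⟩ := eventually_atTop.1 hX
  exact ⟨c, hc, X₀, fun X hXX a ha h hh E hE => hX₀ X hXX a ha h hh E hE⟩

end Pool.Agent.Results.MP_f9960f_nt.MultiplicativeCharacters
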