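import Mathlib
import Pool.Agent.V5helper49.IS.Main

set_option autoImplicit false

/-!
# Arithmetic progressions of primes with large prime gaps on both sides

Let `R(X) = log X log₂ X log₄ X / (log₃ X)²` (the size of the large gaps of Erdős and Rankin).  For every
`ε > 0` there is `c > 0` such that for large `X` there is a residue class with modulus `Q ≤ X ^ ε` all of whose
primes `p ∈ (X, 3 X]` are isolated: no other prime is at distance `≤ c R(X)` from `p`.  Szemerédi's theorem
holds relative to these primes, for progressions of any length `k` with common difference at most `X ^ ε`: for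
every set `A` of such primes all elements of `A`, with the exception of a proportion `κ` of the primes of the
class, are first terms of progressions contained in `A`.  Hence in every colouring of the natural numbers with
`r` colours there are monochromatic progressions of `k` isolated primes with common difference at most `X ^ ε`.

Proof.  A form of the Erdős-Rankin construction which protects the point in the middle of the window
(`Pool.Agent.TH101.RG.rsurvK`, helper101, on work of helper398), the theorem of Bombieri and Vinogradov with a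
smooth fixed factor of size a power of `X` in the modulus (`Pool.Agent.H378R2.bvrel_holds`), and Szemerédi's
theorem relative to sifted sets, which is uniform in the linear form `Q n + b`
(`Pool.Agent.Y677.RSZ.eng_all`, helper677 and team).  helper49.
-/

namespace Pool.Agent.Results.MP_f9960f_nt.ProgressionsOfIsolatedPrimes

open Pool.Agent.V5helper49.IS

/-- Rankin's function `log X log₂ X log₄ X / (log₃ X)²` (iterated natural logarithms). -/
noncomputable def rankin (X : ℝ) : ℝ :=
  Real.log X * Real.log (Real.log X) * Real.log (Real.log (Real.log (Real.log X))) /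
    Real.log (Real.log (Real.log X)) ^ 2

/-- The distance of every prime other than `p` from `p` is larger than `h`. -/
def Isolated (h : ℝ) (p : ℕ) : Prop := ∀ q : ℕ, q.Prime → q ≠ p → h < |(q : ℝ) - p|

/-- The primes `p ≡ b (mod Q)` with `X < p ≤ 3 X`. -/
def primesIn (X : ℝ) (Q b : ℕ) : Set ℕ := {p | p.Prime ∧ X < p ∧ (p : ℝ) ≤ 3 * X ∧ p ≡ b [MOD Q]}

/-- `p, p + D, ..., p + (k - 1) D` belong to `A` for some `D` with `1 ≤ D ≤ L`. -/
def Starts (k : ℕ) (L : ℝ) (A : Set ℕ) (p : ℕ) : Prop :=
  ∃ D : ℕ, 0 < D ∧ (D : ℝ) ≤ L ∧ ∀ i < k, p + i * D ∈ A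

theorem primesIn_eq (X : ℝ) (hX : 0 ≤ X) (Q b : ℕ) : primesIn X Q b = (cl X Q b : Set ℕ) := by
  ext p
  unfold primesIn cl
  rw [Finset.mem_coe, Finset.mem_filter, Finset.mem_Icc, Nat.le_floor_iff (by positivity)]
  constructor
  · rintro ⟨h1, h2, h3, h4⟩
    exact ⟨⟨h1.pos, h3⟩, h1, h2, h4⟩
  · rintro ⟨⟨_, h3⟩, h1, h2, h4⟩
    exact ⟨h1, h2, h3, h4⟩

/-- **Szemerédi's theorem and van der Waerden's theorem for isolated primes.** For every `ε > 0` and every
squarefree `d` there is `c > 0` such that: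

1. For every length `k`, every `κ > 0`, all large `X` and every `a` prime to `d` there are `Q ≤ X ^ ε` and `b`
such that there are at least `X ^ (1 - ε)` primes `p ≡ b (mod Q)` in `(X, 3 X]`, all of them are `≡ a (mod d)`
and have no other prime at distance `≤ c R(X)`, and for EVERY set `A` of such primes at most a proportion `κ` of
the primes `p ≡ b (mod Q)` of `(X, 3 X]` are elements of `A` which are not first terms of arithmetic progressions
of `k` elements of `A` with common difference `≤ X ^ ε`.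

2. For all `k` and `r`, all large `X` and every `a` prime to `d`, and every colouring of the natural numbers with
`r` colours, at least `X ^ (1 - ε) / 2` integers `p ∈ (X, 3 X]` are first terms of arithmetic progressions of `k`
primes `≤ 3 X`, `≡ a (mod d)`, of the same colour as `p`, with common difference `≤ X ^ ε`, none of which has
another prime at distance `≤ c R(X)`. -/
theorem result (ε : ℝ) (hε : 0 < ε) (d : ℕ) (hd : Squarefree d) : ∃ c : ℝ, 0 < c ∧
    (∀ (k : ℕ) (κ : ℝ), 0 < κ → ∃ X₀ : ℝ, ∀ X : ℝ, X₀ ≤ X → ∀ a : ℕ, a.Coprime d → ∃ Q b : ℕ,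
      0 < Q ∧ (Q : ℝ) ≤ X ^ ε ∧ X ^ (1 - ε) ≤ ((primesIn X Q b).ncard : ℝ) ∧
      (∀ p ∈ primesIn X Q b, p ≡ a [MOD d] ∧ Isolated (c * rankin X) p) ∧
      ∀ A ⊆ primesIn X Q b, (({p | p ∈ A ∧ ¬ Starts k (X ^ ε) A p} : Set ℕ).ncard : ℝ) ≤
        κ * ((primesIn X Q b).ncard : ℝ)) ∧
    ∀ k r : ℕ, ∃ X₀ : ℝ, ∀ X : ℝ, X₀ ≤ X → ∀ a : ℕ, a.Coprime d → ∀ χ : ℕ → Fin r,
      X ^ (1 - ε) / 2 ≤ (({p : ℕ | X < p ∧ (p : ℝ) ≤ 3 * X ∧ Starts k (X ^ ε) {q | q.Prime ∧ (q : ℝ) ≤ 3 * X ∧
        q ≡ a [MOD d] ∧ χ q = χ p ∧ Isolated (c * rankin X) q} p} : Set ℕ).ncard : ℝ) := by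
  classical
  obtain ⟨c, hc, hmain⟩ := main ε hε d hd
  have hrk : ∀ X, rk X = rankin X := fun _ => rfl
  refine ⟨c, hc, fun k κ hκ => ?_, fun k r => ?_⟩
  · obtain ⟨X₀, hX₀⟩ := Filter.eventually_atTop.1 (hmain k κ hκ)
    refine ⟨max X₀ 0, fun X hX a ha => ?_⟩
    have hX0 : 0 ≤ X := (le_max_right _ _).trans hX
    obtain ⟨Q, b, h1, h2, h3, h4, h5, h6⟩ := hX₀ X ((le_max_left _ _).trans hX) a ha
    refine ⟨Q, b, h1, h2, ?_, ?_, ?_⟩
    · rw [primesIn_eq X hX0, Set.ncard_coe_finset]
      exact h4
    · intro p hp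
      rw [primesIn_eq X hX0, Finset.mem_coe] at hp
      obtain ⟨g1, g2⟩ := h5 p hp
      exact ⟨g1, fun q hq hqp => by rw [← hrk]; exact g2 q hq hqp⟩
    · intro A hA
      rw [primesIn_eq X hX0] at hA ⊢
      rw [Set.ncard_coe_finset]
      have hAf : A.Finite := (cl X Q b).finite_toSet.subset hA
      have hAc : (hAf.toFinset : Set ℕ) = A := hAf.coe_toFinset
      have h7 := h6 hAf.toFinset (by
        intro p hp
        have : p ∈ A := by rwa [Set.Finite.mem_toFinset] at hp
        exact_mod_cast hA this)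
      simp only [Set.Finite.mem_toFinset] at h7
      exact h7
  · by_cases hr : r = 0
    · subst hr
      exact ⟨0, fun X _ a _ χ => (χ 0).elim0⟩
    have hr0 : (0 : ℝ) < r := by exact_mod_cast Nat.pos_of_ne_zero hr
    obtain ⟨X₀, hX₀⟩ := Filter.eventually_atTop.1 (hmain k (1 / (2 * r)) (by positivity))
    refine ⟨max X₀ 0, fun X hX a ha χ => ?_⟩
    have hX0 : 0 ≤ X := (le_max_right _ _).trans hX
    obtain ⟨Q, b, h1, h2, h3, h4, h5, h6⟩ := hX₀ X ((le_max_left _ _).trans hX) a ha
    -- the primes of the class which are not first terms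
    obtain ⟨G, hG⟩ : ∃ G : Set ℕ, G = {p : ℕ | X < p ∧ (p : ℝ) ≤ 3 * X ∧ Starts k (X ^ ε) {q | q.Prime ∧
      (q : ℝ) ≤ 3 * X ∧ q ≡ a [MOD d] ∧ χ q = χ p ∧ Isolated (c * rankin X) q} p} := ⟨_, rfl⟩
    have hcl : ∀ p ∈ cl X Q b, X < p ∧ (p : ℝ) ≤ 3 * X ∧ p.Prime ∧ p ≡ a [MOD d] ∧ Isolated (c * rankin X) p := by
      intro p hp
      have h7 : p ∈ primesIn X Q b := by rw [primesIn_eq X hX0]; exact hp
      obtain ⟨g1, g2⟩ := h5 p hp
      exact ⟨h7.2.1, h7.2.2.1, h7.1, g1, fun q hq hqp => by rw [← hrk]; exact g2 q hq hqp⟩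
    have hsub : (cl X Q b).filter (fun p => p ∉ G) ⊆
        Finset.univ.biUnion (fun e : Fin r => (cl X Q b).filter (fun p => χ p = e ∧ ¬ Starts k (X ^ ε)
          ((cl X Q b).filter (fun p => χ p = e) : Set ℕ) p)) := by
      intro p hp
      rw [Finset.mem_filter] at hp
      rw [Finset.mem_biUnion]
      refine ⟨χ p, Finset.mem_univ _, Finset.mem_filter.2 ⟨hp.1, rfl, fun hst => hp.2 ?_⟩⟩
      obtain ⟨D, g1, g2, g3⟩ := hst
      rw [hG]
      obtain ⟨e1, e2, e3, e4, e5⟩ := hcl p hp.1
      refine ⟨e1, e2, D, g1, g2, fun i hi => ?_⟩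
      have g4 := g3 i hi
      rw [Finset.mem_coe, Finset.mem_filter] at g4
      obtain ⟨u1, u2, u3, u4, u5⟩ := hcl _ g4.1
      exact ⟨u3, u2, u4, g4.2, u5⟩
    have hbad : (((cl X Q b).filter (fun p => p ∉ G)).card : ℝ) ≤ 1 / 2 * (cl X Q b).card := by
      have h7 := (Finset.card_le_card hsub).trans Finset.card_biUnion_le
      have h8 : (((cl X Q b).filter (fun p => p ∉ G)).card : ℝ) ≤ ∑ e : Fin r,
          (((cl X Q b).filter (fun p => χ p = e ∧ ¬ Starts k (X ^ ε)
          ((cl X Q b).filter (fun p => χ p = e) : Set ℕ) p)).card : ℝ) := by exact_mod_cast h7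
      refine h8.trans ?_
      have h9 : ∀ e ∈ (Finset.univ : Finset (Fin r)), (((cl X Q b).filter (fun p => χ p = e ∧ ¬ Starts k (X ^ ε)
          ((cl X Q b).filter (fun p => χ p = e) : Set ℕ) p)).card : ℝ) ≤ 1 / (2 * r) * (cl X Q b).card := by
        intro e _
        refine le_trans (le_of_eq ?_) (h6 ((cl X Q b).filter (fun p => χ p = e)) (Finset.filter_subset _ _))
        rw [← Set.ncard_coe_finset]
        congr 2
        ext p
        rw [Finset.mem_coe, Finset.mem_filter, Set.mem_ofPred_eq, Finset.mem_filter, and_assoc]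
        exact Iff.rfl
      refine (Finset.sum_le_sum h9).trans (le_of_eq ?_)
      rw [Finset.sum_const, Finset.card_univ, Fintype.card_fin, nsmul_eq_mul]
      field_simp
    have hgood : ((cl X Q b).card : ℝ) = ((cl X Q b).filter (fun p => p ∈ G)).card +
        ((cl X Q b).filter (fun p => p ∉ G)).card := by
      have := Finset.card_filter_add_card_filter_not (s := cl X Q b) (fun p => p ∈ G)
      exact_mod_cast this.symm
    rw [← hG]
    have hGf : G.Finite := by
      apply (Set.finite_Iic ⌊3 * X⌋₊).subset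
      intro p hp
      rw [hG] at hp
      exact Nat.le_floor hp.2.1
    have hle : (((cl X Q b).filter (fun p => p ∈ G)).card : ℝ) ≤ (G.ncard : ℝ) := by
      rw [← Set.ncard_coe_finset]
      have := Set.ncard_le_ncard (s := (((cl X Q b).filter (fun p => p ∈ G) : Finset ℕ) : Set ℕ)) (t := G)
        (fun p hp => by
          rw [Finset.mem_coe, Finset.mem_filter] at hp
          exact hp.2) hGf
      exact_mod_cast this
    linarith only [h4, hbad, hgood, hle]

end Pool.Agent.Results.MP_f9960f_nt.ProgressionsOfIsolatedPrimes
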